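import Pool.Agent.W2helper45.UC.Stm

/-!
# Project UC (helper45, MP_0f948c_co), piece FUN: the degree functional
-/

set_option autoImplicit false

namespace Pool.Agent.W2helper71.UC

open MvPolynomial
open Pool.Agent.W2helper45.UC

variable {n : ℕ}

/-- the functional -/
noncomputable def lam (n r : ℕ) : MvPolynomial (Finset (Fin n)) ℚ →ₗ[ℚ] ℚ :=
  (basisMonomials (Finset (Fin n)) ℚ).constr ℚ fun m : Ex n =>
    if m.degree + 1 = r then Df (m + Finsupp.single Finset.univ (n - r)) else 0

lemma lam_monomial (n r : ℕ) (m : Ex n) : lam n r (monomial m 1) =
    if m.degree + 1 = r then Df (m + Finsupp.single Finset.univ (n - r)) else 0 := by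
  have h := (basisMonomials (Finset (Fin n)) ℚ).constr_basis ℚ (fun m : Ex n =>
    if m.degree + 1 = r then Df (m + Finsupp.single Finset.univ (n - r)) else 0) m
  rw [coe_basisMonomials] at h
  exact h

/-- it is enough to look at the monomial multiples -/
lemma of_monomial {n r : ℕ} {g : MvPolynomial (Finset (Fin n)) ℚ}
    (h : ∀ m : Ex n, lam n r (monomial m 1 * g) = 0) : ∀ q, lam n r (q * g) = 0 := by
  intro q
  induction q using MvPolynomial.induction_on' with
  | monomial m a =>
    have : monomial m a * g = a • (monomial m 1 * g) := by
      rw [← smul_mul_assoc, smul_monomial, smul_eq_mul, mul_one]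
    rw [this, map_smul, h, smul_zero]
  | add p q hp hq => rw [add_mul, map_add, hp, hq, add_zero]

lemma df_of_empty {M : Ex n} (h : ∅ ∈ M.support) : Df M = 0 := by
  rw [Df, if_neg]
  exact fun h' => h'.1 h

lemma df_of_not_chain {M : Ex n} (h : ¬ IsChain (· ⊆ ·) (M.support : Set (Finset (Fin n)))) :
    Df M = 0 := by
  rw [Df, if_neg]
  exact fun h' => h h'.2

lemma mem_support_add {M : Ex n} {F : Finset (Fin n)} :
    F ∈ (M + Finsupp.single F 1).support := by
  rw [Finsupp.mem_support_iff, Finsupp.add_apply, Finsupp.single_eq_same]
  omega

lemma mem_support_add_left {M N : Ex n} {F : Finset (Fin n)} (h : F ∈ M.support) :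
    F ∈ (M + N).support := by
  rw [Finsupp.mem_support_iff] at h ⊢
  rw [Finsupp.add_apply]
  omega

theorem p_fun (hZT : P_ZT) (hBD : P_BD) : P_FUN := by
  classical
  intro n r hr hrn
  refine ⟨lam n r, fun m hm => by rw [lam_monomial, if_pos hm], fun p hp => ?_⟩
  have key : ∀ q, lam n r (q * p) = 0 := by
    unfold kI at hp
    induction hp using Submodule.span_induction with
    | zero => intro q; rw [mul_zero, map_zero]
    | add x y _ _ hx hy => intro q; rw [mul_add, map_add, hx, hy, add_zero]
    | smul a x _ hx =>
      intro q
      rw [smul_eq_mul, ← mul_assoc]
      exact hx _
    | mem x hx =>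
      rcases hx with (⟨F, hF, rfl⟩ | ⟨F, G, hFG, hGF, rfl⟩) | ⟨i, rfl⟩
      · -- not a flat
        refine of_monomial fun m => ?_
        rw [X, monomial_mul, one_mul, lam_monomial]
        split_ifs with hdeg
        · by_cases hF0 : F = ∅
          · subst hF0
            exact df_of_empty (mem_support_add_left mem_support_add)
          have hFc : r ≤ F.card ∧ F ≠ Finset.univ := by
            unfold IsFl at hF
            push Not at hF
            exact hF (Finset.nonempty_iff_ne_empty.2 hF0)
          by_contra hne
          unfold Df at hne
          split_ifs at hne with hc
          · set M := m + Finsupp.single F 1 + Finsupp.single Finset.univ (n - r) with hM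
            have hFs : F ∈ M.support := mem_support_add_left mem_support_add
            have hab : F ∈ ab M ∅ := mem_ab.2 ⟨hFs, Finset.empty_ssubset.2
              (Finset.nonempty_iff_ne_empty.2 hF0), hFc.2⟩
            have hch : IsChain (· ⊆ ·) (ab M ∅ : Set (Finset (Fin n))) :=
              hc.2.mono fun H hH => (mem_ab.1 hH).1
            have h1 := hBD n M ∅ 0 hch hne F hab
            have h2 : ∑ H ∈ M.support with ∅ ⊂ H ∧ H ⊆ F, M H ≤ (m + Finsupp.single F 1).degree := by
              rw [Finsupp.degree_eq_sum]
              refine le_trans (le_of_eq (Finset.sum_congr rfl fun H hH => ?_))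
                (Finset.sum_le_sum_of_subset (Finset.subset_univ _))
              rw [Finset.mem_filter] at hH
              have hHu : Finset.univ ≠ H := by
                rintro rfl
                exact hFc.2 (Finset.univ_subset_iff.1 hH.2.2)
              rw [hM, Finsupp.add_apply, Finsupp.single_eq_of_ne' hHu, add_zero]
            rw [Finset.card_empty] at h1
            have h3 := hFc.1
            have h4 : F.card ≤ ∑ H ∈ M.support with ∅ ⊂ H ∧ H ⊆ F, M H := by
              have h5 := h1
              rw [Nat.cast_zero, zero_add, zero_add] at h5
              exact_mod_cast h5
            omega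
          · exact hne rfl
        · rfl
      · -- incomparable
        refine of_monomial fun m => ?_
        rw [X, X, monomial_mul, monomial_mul, one_mul, one_mul, lam_monomial]
        split_ifs with hdeg
        · refine df_of_not_chain fun hc => ?_
          have h1 : F ∈ (m + (Finsupp.single F 1 + Finsupp.single G 1) +
              Finsupp.single Finset.univ (n - r)).support := by
            rw [← add_assoc]
            exact mem_support_add_left (mem_support_add_left mem_support_add)
          have h2 : G ∈ (m + (Finsupp.single F 1 + Finsupp.single G 1) +
              Finsupp.single Finset.univ (n - r)).support := by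
            rw [← add_assoc]
            exact mem_support_add_left mem_support_add
          rcases hc.total h1 h2 with h | h
          · exact hFG h
          · exact hGF h
        · rfl
      · -- linear relation
        refine of_monomial fun m => ?_
        rw [Finset.mul_sum, map_sum]
        have hterm : ∀ F : Finset (Fin n), lam n r (monomial m 1 * X F) =
            if m.degree + 2 = r then
              Df (m + Finsupp.single Finset.univ (n - r) + Finsupp.single F 1) else 0 := by
          intro F
          have e : m + Finsupp.single F 1 + Finsupp.single Finset.univ (n - r) =
              m + Finsupp.single Finset.univ (n - r) + Finsupp.single F 1 := add_right_comm _ _ _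
          rw [X, monomial_mul, one_mul, lam_monomial, map_add, Finsupp.degree_single, e]
        simp only [hterm]
        split_ifs with hdeg
        · set M := m + Finsupp.single Finset.univ (n - r) with hM
          by_cases h0 : ∅ ∈ M.support
          · exact Finset.sum_eq_zero fun F _ => df_of_empty (mem_support_add_left h0)
          by_cases hc : IsChain (· ⊆ ·) (M.support : Set (Finset (Fin n)))
          · have hch : IsChain (· ⊆ ·) (ab M ∅ : Set (Finset (Fin n))) :=
              hc.mono fun H hH => (mem_ab.1 hH).1
            have hdegM : ∑ H ∈ M.support with ∅ ⊂ H, M H = m.degree + (n - r) := by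
              have h1 : M.support.filter (fun H => ∅ ⊂ H) = M.support := by
                refine Finset.filter_true_of_mem fun H hH => ?_
                rw [Finset.empty_ssubset, Finset.nonempty_iff_ne_empty]
                rintro rfl
                exact h0 hH
              rw [h1]
              have h2 : M.degree = m.degree + (n - r) := by
                rw [hM, map_add, Finsupp.degree_single]
              rw [← h2]
              rfl
            have h1 := (hZT n M ∅ 0 le_rfl hch (by
              rw [hdegM, Finset.card_empty]
              push_cast
              omega)).2 i (Finset.notMem_empty i)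
            rw [← h1]
            symm
            refine Finset.sum_subset_zero_on_sdiff ?_ ?_ ?_
            · intro F hF
              rw [Finset.mem_filter] at hF ⊢
              exact ⟨Finset.mem_univ _, hF.2⟩
            · intro F hF
              rw [Finset.mem_sdiff, Finset.mem_filter, Finset.mem_filter] at hF
              obtain ⟨⟨-, hiF⟩, hF2⟩ := hF
              refine df_of_not_chain fun hc' => hF2 ⟨?_, hiF⟩
              rw [cp, Finset.mem_filter]
              refine ⟨Finset.mem_univ _, Finset.empty_ssubset.2 ⟨i, hiF⟩, fun H hH => ?_⟩
              exact hc'.total mem_support_add (mem_support_add_left (mem_ab.1 hH).1)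
            · intro F hF
              rw [Finset.mem_filter, cp, Finset.mem_filter] at hF
              obtain ⟨⟨-, hF1, hF2⟩, hiF⟩ := hF
              rw [Df, if_pos]
              have hsup : ∀ H ∈ (M + Finsupp.single F 1).support, H ∈ M.support ∨ H = F := by
                intro H hH
                by_cases hHF : H = F
                · exact Or.inr hHF
                · left
                  rw [Finsupp.mem_support_iff, Finsupp.add_apply,
                    Finsupp.single_eq_of_ne hHF, add_zero] at hH
                  exact Finsupp.mem_support_iff.2 hH
              have hcmp : ∀ H ∈ M.support, F ⊆ H ∨ H ⊆ F := by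
                intro H hH
                by_cases hHu : H = Finset.univ
                · left; rw [hHu]; exact Finset.subset_univ _
                · refine hF2 H (mem_ab.2 ⟨hH, ?_, hHu⟩)
                  rw [Finset.empty_ssubset, Finset.nonempty_iff_ne_empty]
                  rintro rfl
                  exact h0 hH
              refine ⟨fun h => ?_, fun H hH H' hH' hne => ?_⟩
              · rcases hsup _ h with h | h
                · exact h0 h
                · rw [← h] at hF1
                  exact Finset.not_nonempty_empty (Finset.empty_ssubset.1 hF1)
              · rcases hsup _ hH with h | h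
                · rcases hsup _ hH' with h' | h'
                  · exact hc h h' hne
                  · rw [h']
                    exact (hcmp H h).symm
                · rcases hsup _ hH' with h' | h'
                  · rw [h]
                    exact hcmp H' h'
                  · exact absurd (h.trans h'.symm) hne
          · refine Finset.sum_eq_zero fun F _ => df_of_not_chain fun hc' => hc ?_
            exact hc'.mono fun H hH => mem_support_add_left hH
        · exact Finset.sum_const_zero
  have := key 1
  rwa [one_mul] at this

end Pool.Agent.W2helper71.UC
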